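import Pool.Agent.L7h22.FP.Cls
import Pool.Agent.L7h79.BP.Prc
import Pool.Agent.H442R2.KF.Bv

set_option autoImplicit false

/-!
# Project FP (MP_ccd64a_nt): the divisors `≡ 3 mod 4` of `p + 1` on average, `L < p ≤ 16 L`
(from the theorem of Bombieri and Vinogradov)
-/

namespace Pool.Agent.L7h22.FP

open Finset Filter
open Pool.Agent.H442R2.KF (piN piAP Er)

theorem er_sum (C : ℝ) (N J0 : ℕ) (hN : 3 ≤ N) (hJ : ∀ j ∈ Icc 1 J0, 4 * j - 1 ≤ ⌊(N : ℝ) ^ (1 / 3 : ℝ)⌋₊)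
    (hbv : ∀ N : ℕ, 3 ≤ N → ∀ a : ℕ → ℕ, (∀ d, 1 ≤ d → Nat.Coprime (a d) d) →
      ∑ d ∈ Icc 1 ⌊(N : ℝ) ^ (1 / 3 : ℝ)⌋₊, |Er N d (a d)| ≤ C * (N / Real.log N ^ 2)) :
    ∑ j ∈ Icc 1 J0, |Er N (4 * j - 1) (4 * j - 2)| ≤ C * (N / Real.log N ^ 2) := by
  refine le_trans ?_ (hbv N hN (fun d => d - 1) (fun d hd => by
    show Nat.Coprime (d - 1) d
    obtain ⟨k, rfl⟩ : ∃ k, d = k + 1 := ⟨d - 1, by omega⟩
    simp))
  have h1 : ∑ j ∈ Icc 1 J0, |Er N (4 * j - 1) (4 * j - 2)| =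
      ∑ d ∈ (Icc 1 J0).image (fun j => 4 * j - 1), |Er N d (d - 1)| := by
    rw [Finset.sum_image]
    · refine Finset.sum_congr rfl fun j hj => ?_
      rw [Finset.mem_Icc] at hj
      congr 2
    · intro a ha b hb h
      simp only [Finset.coe_Icc, Set.mem_Icc] at ha hb
      simp only at h
      omega
  rw [h1]
  refine Finset.sum_le_sum_of_subset_of_nonneg ?_ fun _ _ _ => abs_nonneg _
  intro d hd
  rw [Finset.mem_image] at hd
  obtain ⟨j, hj, rfl⟩ := hd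
  have h2 := hJ j hj
  rw [Finset.mem_Icc] at hj ⊢
  exact ⟨by omega, h2⟩

theorem ap_diff (L j : ℕ) (hj : 1 ≤ j) :
    ((((Ioc L (16 * L)).filter Nat.Prime).filter (fun p => p % (4 * j - 1) = 4 * j - 2)).card : ℝ) =
      (piAP (16 * L) (4 * j - 1) (4 * j - 2) : ℝ) - piAP L (4 * j - 1) (4 * j - 2) := by
  unfold piAP
  have hm : (4 * j - 2) % (4 * j - 1) = 4 * j - 2 := Nat.mod_eq_of_lt (by omega)
  have h1 : (Icc 1 (16 * L)).filter (fun p : ℕ => p.Prime ∧ p ≡ 4 * j - 2 [MOD 4 * j - 1]) =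
      (Icc 1 L).filter (fun p : ℕ => p.Prime ∧ p ≡ 4 * j - 2 [MOD 4 * j - 1]) ∪
      ((Ioc L (16 * L)).filter Nat.Prime).filter (fun p => p % (4 * j - 1) = 4 * j - 2) := by
    ext p
    simp only [mem_filter, mem_union, mem_Ioc, mem_Icc, Nat.ModEq, hm]
    constructor
    · rintro ⟨⟨a, b⟩, c, d⟩
      rcases le_or_gt p L with h | h
      · exact Or.inl ⟨⟨a, h⟩, c, d⟩
      · exact Or.inr ⟨⟨⟨h, b⟩, c⟩, d⟩
    · rintro (⟨⟨a, b⟩, c, d⟩ | ⟨⟨⟨a, b⟩, c⟩, d⟩)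
      · exact ⟨⟨a, by omega⟩, c, d⟩
      · exact ⟨⟨by omega, b⟩, c, d⟩
  rw [h1, Finset.card_union_of_disjoint]
  · push_cast; ring
  · rw [Finset.disjoint_left]
    intro p hp hq
    simp only [mem_filter, mem_Ioc, mem_Icc] at hp hq
    omega

theorem pi_diff (L : ℕ) : (((Ioc L (16 * L)).filter Nat.Prime).card : ℝ) =
    (piN (16 * L) : ℝ) - piN L := by
  unfold piN
  have h1 : (Icc 1 (16 * L)).filter (fun p : ℕ => p.Prime) =
      (Icc 1 L).filter (fun p : ℕ => p.Prime) ∪ (Ioc L (16 * L)).filter Nat.Prime := by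
    ext p
    simp only [mem_filter, mem_union, mem_Ioc, mem_Icc]
    constructor
    · rintro ⟨⟨a, b⟩, c⟩
      rcases le_or_gt p L with h | h
      · exact Or.inl ⟨⟨a, h⟩, c⟩
      · exact Or.inr ⟨⟨h, b⟩, c⟩
    · rintro (⟨⟨a, b⟩, c⟩ | ⟨⟨a, b⟩, c⟩)
      · exact ⟨⟨a, by omega⟩, c⟩
      · exact ⟨⟨by omega, b⟩, c⟩
  rw [h1, Finset.card_union_of_disjoint]
  · push_cast; ring
  · rw [Finset.disjoint_left]
    intro p hp hq
    simp only [mem_filter, mem_Ioc, mem_Icc] at hp hq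
    omega

theorem tot_sum (J0 : ℕ) : (1 / 4 : ℝ) * Real.log (J0 + 1) ≤
    ∑ j ∈ Icc 1 J0, 1 / (Nat.totient (4 * j - 1) : ℝ) := by
  have h0 := log_add_one_le_harmonic J0
  have h1 : ((harmonic J0 : ℚ) : ℝ) = ∑ i ∈ range J0, (1 : ℝ) / (i + 1) := by
    unfold harmonic
    push_cast
    refine Finset.sum_congr rfl fun i _ => ?_
    rw [one_div]
  rw [h1] at h0
  push_cast at h0
  have h3 : ∑ j ∈ Icc 1 J0, 1 / (Nat.totient (4 * j - 1) : ℝ) =
      ∑ i ∈ range J0, 1 / (Nat.totient (4 * (i + 1) - 1) : ℝ) := by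
    rw [← Finset.sum_image (s := range J0) (g := fun i => i + 1)
      (f := fun j => 1 / (Nat.totient (4 * j - 1) : ℝ)) (fun a _ b _ h => by simpa using h)]
    congr 1
    ext j
    simp only [Finset.mem_Icc, Finset.mem_image, Finset.mem_range]
    constructor
    · rintro ⟨a, b⟩
      exact ⟨j - 1, by omega, by omega⟩
    · rintro ⟨i, a, rfl⟩
      omega
  rw [h3]
  have h4 : (1 / 4 : ℝ) * ∑ i ∈ range J0, (1 : ℝ) / (i + 1) ≤
      ∑ i ∈ range J0, 1 / (Nat.totient (4 * (i + 1) - 1) : ℝ) := by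
    rw [Finset.mul_sum]
    refine Finset.sum_le_sum fun i _ => ?_
    have h4 : 0 < Nat.totient (4 * (i + 1) - 1) := Nat.totient_pos.2 (by omega)
    have h5 : (0 : ℝ) < (Nat.totient (4 * (i + 1) - 1) : ℝ) := by exact_mod_cast h4
    have h6 : (Nat.totient (4 * (i + 1) - 1) : ℝ) ≤ 4 * (i + 1) := by
      have := Nat.totient_le (4 * (i + 1) - 1)
      have h7 : Nat.totient (4 * (i + 1) - 1) ≤ 4 * (i + 1) := by omega
      exact_mod_cast h7
    have h8 : (1 / 4 : ℝ) * (1 / (i + 1)) = 1 / (4 * (i + 1)) := by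
      field_simp
    rw [h8]
    exact one_div_le_one_div_of_le h5 h6
  linarith

theorem block : ∃ c : ℝ, 0 < c ∧ ∀ᶠ L : ℕ in atTop,
    c ≤ ∑ p ∈ (Ioc L (16 * L)).filter Nat.Prime, ((Om p).card : ℝ) / p := by
  obtain ⟨C, hC, hbv⟩ := Pool.Agent.H442R2.KF.bv (1 / 3) (by norm_num) 2
  obtain ⟨c0, hc0, hprc⟩ := Pool.Agent.L7h79.BP.s_PRC
  refine ⟨c0 / 768, by positivity, ?_⟩
  have hlogL : Tendsto (fun X : ℕ => Real.log (X : ℝ)) atTop atTop :=
    Real.tendsto_log_atTop.comp tendsto_natCast_atTop_atTop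
  filter_upwards [hprc, eventually_ge_atTop 3, hlogL.eventually (eventually_ge_atTop 9),
    hlogL.eventually (eventually_ge_atTop (816 * C / c0)),
    hlogL.eventually (eventually_ge_atTop 1)] with L h1 h2 h3 h4 h5
  have hL3 : (3 : ℝ) ≤ L := by exact_mod_cast h2
  have hL0 : (0 : ℝ) < L := by linarith
  obtain ⟨M, hM⟩ : ∃ M : ℕ, M = ⌊(L : ℝ) ^ (1 / 3 : ℝ)⌋₊ := ⟨_, rfl⟩
  obtain ⟨J0, hJ0⟩ : ∃ J0 : ℕ, J0 = (M + 1) / 4 := ⟨_, rfl⟩
  have hML : M ≤ L := by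
    have h6 : (L : ℝ) ^ (1 / 3 : ℝ) ≤ L := by
      calc (L : ℝ) ^ (1 / 3 : ℝ) ≤ (L : ℝ) ^ (1 : ℝ) :=
            Real.rpow_le_rpow_of_exponent_le (by linarith) (by norm_num)
        _ = L := Real.rpow_one _
    rw [hM]
    exact Nat.floor_le_of_le h6
  have hr1 : ∀ j ∈ Icc 1 J0, 4 * j - 1 ≤ ⌊(L : ℝ) ^ (1 / 3 : ℝ)⌋₊ := by
    intro j hj
    rw [Finset.mem_Icc] at hj
    rw [← hM]
    omega
  have hr2 : ∀ j ∈ Icc 1 J0, 4 * j - 1 ≤ ⌊((16 * L : ℕ) : ℝ) ^ (1 / 3 : ℝ)⌋₊ := by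
    intro j hj
    refine (hr1 j hj).trans (Nat.floor_le_floor ?_)
    refine Real.rpow_le_rpow hL0.le ?_ (by norm_num)
    push_cast
    linarith
  have e1 := er_sum C L J0 h2 hr1 hbv
  have e2 := er_sum C (16 * L) J0 (by omega) hr2 hbv
  have e3 := tot_sum J0
  -- the number of pairs
  obtain ⟨S, hS⟩ : ∃ S : Finset ℕ, S = (Ioc L (16 * L)).filter Nat.Prime := ⟨_, rfl⟩
  rw [← hS] at h1 ⊢
  have hSmem : ∀ p ∈ S, L < p ∧ p ≤ 16 * L ∧ p.Prime := by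
    intro p hp
    rw [hS, Finset.mem_filter, Finset.mem_Ioc] at hp
    exact ⟨hp.1.1, hp.1.2, hp.2⟩
  have e4 : ∑ j ∈ Icc 1 J0, ((S.filter (fun p => p % (4 * j - 1) = 4 * j - 2)).card : ℝ) ≤
      ∑ p ∈ S, ((Om p).card : ℝ) := by
    have e5 : ∑ j ∈ Icc 1 J0, ((S.filter (fun p => p % (4 * j - 1) = 4 * j - 2)).card : ℝ) =
        ∑ p ∈ S, (((Icc 1 J0).filter (fun j => p % (4 * j - 1) = 4 * j - 2)).card : ℝ) := by
      simp_rw [Finset.card_filter]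
      push_cast
      rw [Finset.sum_comm]
    rw [e5]
    refine Finset.sum_le_sum fun p hp => ?_
    obtain ⟨p1, p2, p3⟩ := hSmem p hp
    rw [Om_card p p3.two_le]
    have e6 : (Icc 1 J0).filter (fun j => p % (4 * j - 1) = 4 * j - 2) ⊆ J p := by
      intro j hj
      unfold J
      rw [Finset.mem_filter, Finset.mem_Icc] at hj ⊢
      exact ⟨⟨hj.1.1, by omega⟩, hj.2⟩
    exact_mod_cast Finset.card_le_card e6
  have e7 : ∀ j ∈ Icc 1 J0, c0 * L / Real.log L * (1 / (Nat.totient (4 * j - 1) : ℝ)) -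
      (|Er (16 * L) (4 * j - 1) (4 * j - 2)| + |Er L (4 * j - 1) (4 * j - 2)|) ≤
      ((S.filter (fun p => p % (4 * j - 1) = 4 * j - 2)).card : ℝ) := by
    intro j hj
    rw [Finset.mem_Icc] at hj
    rw [hS, ap_diff L j hj.1]
    have a1 := pi_diff L
    rw [← hS] at a1
    rw [a1] at h1
    have a2 : (Er (16 * L) (4 * j - 1) (4 * j - 2)) = (piAP (16 * L) (4 * j - 1) (4 * j - 2) : ℝ) -
      (piN (16 * L) : ℝ) / (Nat.totient (4 * j - 1) : ℝ) := rfl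
    have a3 : (Er L (4 * j - 1) (4 * j - 2)) = (piAP L (4 * j - 1) (4 * j - 2) : ℝ) -
      (piN L : ℝ) / (Nat.totient (4 * j - 1) : ℝ) := rfl
    have a4 := neg_abs_le (Er (16 * L) (4 * j - 1) (4 * j - 2))
    have a5 := le_abs_self (Er L (4 * j - 1) (4 * j - 2))
    have a6 : 0 < Nat.totient (4 * j - 1) := Nat.totient_pos.2 (by omega)
    have a7 : (0 : ℝ) ≤ 1 / (Nat.totient (4 * j - 1) : ℝ) := by positivity
    have a8 := mul_le_mul_of_nonneg_right h1 a7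
    have a9 : ((piN (16 * L) : ℝ) - piN L) * (1 / (Nat.totient (4 * j - 1) : ℝ)) =
        (piN (16 * L) : ℝ) / (Nat.totient (4 * j - 1) : ℝ) -
        (piN L : ℝ) / (Nat.totient (4 * j - 1) : ℝ) := by ring
    rw [a9] at a8
    linarith
  have e8 := Finset.sum_le_sum e7
  rw [Finset.sum_sub_distrib, ← Finset.mul_sum, Finset.sum_add_distrib] at e8
  have hlog0 : 0 < Real.log L := by linarith
  have e9 : 1 / 6 * Real.log L ≤ Real.log (J0 + 1) := by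
    have b1 : (L : ℝ) ^ (1 / 3 : ℝ) / 4 ≤ (J0 : ℝ) + 1 := by
      have b2 : (L : ℝ) ^ (1 / 3 : ℝ) < M + 1 := by rw [hM]; exact Nat.lt_floor_add_one _
      have b3 : M + 1 ≤ 4 * (J0 + 1) := by omega
      have b4 : ((M : ℝ) + 1) ≤ 4 * (J0 + 1) := by exact_mod_cast b3
      linarith
    have b5 := Real.log_le_log (by positivity) b1
    rw [Real.log_div (by positivity) (by norm_num), Real.log_rpow hL0] at b5
    have b6 : Real.log 4 = 2 * Real.log 2 := by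
      rw [show (4 : ℝ) = 2 ^ 2 by norm_num, Real.log_pow]
      norm_num
    have b7 := Real.log_two_lt_d9
    linarith
  have f1 : c0 * L / Real.log L * (1 / 24 * Real.log L) ≤
      c0 * L / Real.log L * ∑ j ∈ Icc 1 J0, 1 / (Nat.totient (4 * j - 1) : ℝ) := by
    refine mul_le_mul_of_nonneg_left (by linarith) (by positivity)
  have f2 : c0 * L / Real.log L * (1 / 24 * Real.log L) = c0 / 24 * L := by
    field_simp
  have f3 : ((16 * L : ℕ) : ℝ) / Real.log ((16 * L : ℕ) : ℝ) ^ 2 ≤ 16 * (L / Real.log L ^ 2) := by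
    have g1 : Real.log L ≤ Real.log ((16 * L : ℕ) : ℝ) := by
      refine Real.log_le_log hL0 ?_
      push_cast
      linarith
    have g2 : Real.log L ^ 2 ≤ Real.log ((16 * L : ℕ) : ℝ) ^ 2 := pow_le_pow_left₀ hlog0.le g1 2
    push_cast
    calc 16 * (L : ℝ) / Real.log (16 * L) ^ 2 ≤ 16 * (L : ℝ) / Real.log L ^ 2 := by
          refine div_le_div_of_nonneg_left (by positivity) (by positivity) ?_
          push_cast at g2
          exact g2
      _ = _ := by ring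
  have f4 : C * (L / Real.log L ^ 2) * 17 ≤ c0 / 48 * L := by
    have g1 : 816 * C / c0 ≤ Real.log L ^ 2 := by nlinarith
    rw [div_le_iff₀ hc0] at g1
    have g3 : C * (L / Real.log L ^ 2) * 17 = (17 * C * L) / Real.log L ^ 2 := by ring
    rw [g3, div_le_iff₀ (by positivity)]
    nlinarith
  have f5 : C * (((16 * L : ℕ) : ℝ) / Real.log ((16 * L : ℕ) : ℝ) ^ 2) ≤
      C * (16 * (L / Real.log L ^ 2)) := mul_le_mul_of_nonneg_left f3 hC.le
  have f6 : c0 / 48 * L ≤ ∑ p ∈ S, ((Om p).card : ℝ) := by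
    linarith
  have f7 : (∑ p ∈ S, ((Om p).card : ℝ)) / (16 * L) ≤ ∑ p ∈ S, ((Om p).card : ℝ) / p := by
    rw [Finset.sum_div]
    refine Finset.sum_le_sum fun p hp => ?_
    obtain ⟨p1, p2, p3⟩ := hSmem p hp
    have g1 : (p : ℝ) ≤ 16 * L := by exact_mod_cast p2
    have g2 : (0 : ℝ) < p := by exact_mod_cast p3.pos
    exact div_le_div_of_nonneg_left (by positivity) g2 g1
  refine le_trans ?_ f7
  rw [le_div_iff₀ (by positivity)]
  linarith

end Pool.Agent.L7h22.FP
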