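import Pool.Agent.L7h22.FP.Sv

set_option autoImplicit false

/-!
# Project FP (MP_ccd64a_nt): the residue classes of the second polynomial

If `p` is a prime and `4 j - 1` divides `p + 1`, `z = (p + 1) / (4 j - 1)`, then every `q` with
`q = - j z` modulo `p` is the value of `x (4 y z - z - 1) - y z` for `y = j` and some `x ≥ 1`.
-/

namespace Pool.Agent.L7h22.FP

open Finset

/-- `q` is a value of `x (4 y z - z - 1) - y z` with `y z ≤ B`. -/
def P2 (B : ℝ) (q : ℕ) : Prop := ∃ x y z : ℕ, 1 ≤ x ∧ 1 ≤ y ∧ 1 ≤ z ∧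
  (y : ℝ) * z ≤ B ∧ (q : ℤ) = (x : ℤ) * (4 * y * z - z - 1) - y * z

/-- the `j` with `4 j - 1 ∣ p + 1` -/
def J (p : ℕ) : Finset ℕ := (Icc 1 p).filter (fun j => p % (4 * j - 1) = 4 * j - 2)

/-- the residue classes -/
def Om (p : ℕ) : Finset ℕ := (J p).image (fun j => p - j * ((p + 1) / (4 * j - 1)))

theorem dz {p j : ℕ} (hj : j ∈ J p) : 1 ≤ j ∧
    4 * (j * ((p + 1) / (4 * j - 1))) = p + 1 + (p + 1) / (4 * j - 1) ∧
    1 ≤ (p + 1) / (4 * j - 1) := by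
  unfold J at hj
  rw [Finset.mem_filter, Finset.mem_Icc] at hj
  obtain ⟨⟨h1, h2⟩, h3⟩ := hj
  obtain ⟨D, hD⟩ : ∃ D : ℕ, D = 4 * j - 1 := ⟨_, rfl⟩
  have hD3 : 3 ≤ D := by omega
  have h4 : D ∣ p + 1 := by
    rw [← hD] at h3
    have h5 := Nat.div_add_mod p D
    refine ⟨p / D + 1, ?_⟩
    have : p % D = D - 1 := by omega
    rw [mul_add, mul_one]
    omega
  rw [← hD]
  have h5 : D * ((p + 1) / D) = p + 1 := Nat.mul_div_cancel' h4
  obtain ⟨z, hz⟩ : ∃ z : ℕ, z = (p + 1) / D := ⟨_, rfl⟩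
  rw [← hz] at h5 ⊢
  have hz1 : 1 ≤ z := by
    rcases Nat.eq_zero_or_pos z with h | h
    · rw [h] at h5; omega
    · exact h
  refine ⟨h1, ?_, hz1⟩
  have h6 : 4 * j = D + 1 := by omega
  calc 4 * (j * z) = (4 * j) * z := by ring
    _ = (D + 1) * z := by rw [h6]
    _ = D * z + z := by ring
    _ = p + 1 + z := by rw [h5]

theorem dz_le {p j : ℕ} (hp : 2 ≤ p) (hj : j ∈ J p) :
    1 ≤ j * ((p + 1) / (4 * j - 1)) ∧ j * ((p + 1) / (4 * j - 1)) < p := by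
  obtain ⟨h1, h3, h4⟩ := dz hj
  obtain ⟨z, hz⟩ : ∃ z : ℕ, z = (p + 1) / (4 * j - 1) := ⟨_, rfl⟩
  rw [← hz] at h3 h4 ⊢
  have h5 : z ≤ j * z := Nat.le_mul_of_pos_left z h1
  constructor
  · omega
  · omega

theorem Om_card (p : ℕ) (hp : 2 ≤ p) : (Om p).card = (J p).card := by
  unfold Om
  refine Finset.card_image_of_injOn ?_
  intro j hj i hi h
  rw [Finset.mem_coe] at hj hi
  obtain ⟨a1, a3, a4⟩ := dz hj
  obtain ⟨b1, b3, b4⟩ := dz hi
  have c1 := dz_le hp hj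
  have c2 := dz_le hp hi
  simp only at h
  have e1 : j * ((p + 1) / (4 * j - 1)) = i * ((p + 1) / (4 * i - 1)) := by omega
  have e2 : (p + 1) / (4 * j - 1) = (p + 1) / (4 * i - 1) := by omega
  rw [← e2] at e1
  exact Nat.eq_of_mul_eq_mul_right (by omega) e1

theorem Om_lt (p : ℕ) (hp : 2 ≤ p) : ∀ r ∈ Om p, r < p := by
  intro r hr
  unfold Om at hr
  rw [Finset.mem_image] at hr
  obtain ⟨j, hj, rfl⟩ := hr
  have := dz_le hp hj
  omega

theorem not_mem {p q : ℕ} {B : ℝ} (hp : 2 ≤ p) (hpB : (p : ℝ) ≤ B) (hq : ¬ P2 B q) :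
    q % p ∉ Om p := by
  intro h
  unfold Om at h
  rw [Finset.mem_image] at h
  obtain ⟨j, hj, h⟩ := h
  obtain ⟨a1, a3, a4⟩ := dz hj
  have c1 := dz_le hp hj
  obtain ⟨z, hz⟩ : ∃ z : ℕ, z = (p + 1) / (4 * j - 1) := ⟨_, rfl⟩
  rw [← hz] at a3 a4 c1 h
  apply hq
  refine ⟨q / p + 1, j, z, Nat.le_add_left 1 _, a1, a4, ?_, ?_⟩
  · have : ((j * z : ℕ) : ℝ) ≤ p := by exact_mod_cast c1.2.le
    push_cast at this
    linarith
  · have h5 := Nat.div_add_mod q p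
    have h6 : (q % p) + j * z = p := by omega
    have h7 : (p : ℤ) * (q / p : ℕ) + (q % p : ℕ) = q := by exact_mod_cast h5
    have h8 : ((q % p : ℕ) : ℤ) + j * z = p := by exact_mod_cast h6
    have h9 : 4 * ((j : ℤ) * z) = p + 1 + z := by exact_mod_cast a3
    have h10 : (4 * (j : ℤ) * z - z - 1) = p := by linarith
    rw [h10]
    push_cast
    linarith

end Pool.Agent.L7h22.FP
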