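import Pool.Agent.L7h22.FP.Blk

set_option autoImplicit false

/-!
# Project FP (MP_ccd64a_nt): the counting theorem for the second polynomial
-/

namespace Pool.Agent.L7h22.FP

open Finset Filter

theorem subset_sum (P : Finset ℕ) (w : ℕ → ℝ) (T : ℝ) (hT : 0 ≤ T) :
    (∀ p ∈ P, 0 ≤ w p ∧ w p ≤ 1) → T ≤ ∑ p ∈ P, w p →
    ∃ Q ⊆ P, T - 1 ≤ ∑ p ∈ Q, w p ∧ ∑ p ∈ Q, w p ≤ T := by
  classical
  induction P using Finset.induction_on with
  | empty =>
    intro _ h
    rw [Finset.sum_empty] at h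
    refine ⟨∅, Finset.Subset.refl _, ?_, ?_⟩
    · rw [Finset.sum_empty]; linarith
    · rw [Finset.sum_empty]; exact hT
  | insert a P ha ih =>
    intro hw h
    rw [Finset.sum_insert ha] at h
    rcases le_or_gt T (∑ p ∈ P, w p) with h1 | h1
    · obtain ⟨Q, hQ, h2, h3⟩ := ih (fun p hp => hw p (Finset.mem_insert_of_mem hp)) h1
      exact ⟨Q, hQ.trans (Finset.subset_insert _ _), h2, h3⟩
    · refine ⟨P, Finset.subset_insert _ _, ?_, h1.le⟩
      have := (hw a (Finset.mem_insert_self _ _)).2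
      linarith

/-- the weight of a prime -/
noncomputable def wt (p : ℕ) : ℝ := ((Om p).card : ℝ) / p

theorem wt_bd (p : ℕ) (hp : p.Prime) : 0 ≤ wt p ∧ wt p ≤ 1 := by
  unfold wt
  refine ⟨by positivity, ?_⟩
  have h1 : (0 : ℝ) < p := by exact_mod_cast hp.pos
  rw [div_le_one h1]
  have h3 : Om p ⊆ range p := fun x hx => Finset.mem_range.2 (Om_lt p hp.two_le x hx)
  have h4 := Finset.card_le_card h3
  rw [Finset.card_range] at h4
  exact_mod_cast h4

theorem blocks (c : ℝ) (i0 : ℕ) (h : ∀ L : ℕ, 16 ^ i0 ≤ L →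
    c ≤ ∑ p ∈ (Ioc L (16 * L)).filter Nat.Prime, wt p) (n : ℕ) :
    c * n ≤ ∑ p ∈ (Ioc (16 ^ i0) (16 ^ (i0 + n))).filter Nat.Prime, wt p := by
  induction n with
  | zero => simp
  | succ n ih =>
    have h1 := h (16 ^ (i0 + n)) (Nat.pow_le_pow_right (by norm_num) (by omega))
    have h2 : 16 * 16 ^ (i0 + n) = 16 ^ (i0 + (n + 1)) := by
      rw [← add_assoc, pow_succ]; ring
    rw [h2] at h1
    have h3 : ∑ p ∈ (Ioc (16 ^ i0) (16 ^ (i0 + (n + 1)))).filter Nat.Prime, wt p =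
        ∑ p ∈ (Ioc (16 ^ i0) (16 ^ (i0 + n))).filter Nat.Prime, wt p +
        ∑ p ∈ (Ioc (16 ^ (i0 + n)) (16 ^ (i0 + (n + 1)))).filter Nat.Prime, wt p := by
      rw [Finset.sum_filter, Finset.sum_filter, Finset.sum_filter]
      exact (Finset.sum_Ioc_consecutive _ (Nat.pow_le_pow_right (by norm_num) (by omega))
        (Nat.pow_le_pow_right (by norm_num) (by omega))).symm
    rw [h3]
    push_cast
    linarith

theorem main : ∃ c : ℝ, 0 < c ∧ ∃ C : ℝ, ∀ X : ℕ, 1 ≤ X →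
    (Nat.card {q : ℕ // q ≤ X ∧ ¬ P2 (Real.exp (Real.sqrt (Real.log X))) q} : ℝ) ≤
      C * X * Real.exp (-(c * Real.sqrt (Real.log X))) := by
  obtain ⟨cb, hcb, hb⟩ := block
  obtain ⟨L0, hL0⟩ := eventually_atTop.1 hb
  obtain ⟨i0, hi0⟩ : ∃ i0 : ℕ, i0 = L0 := ⟨_, rfl⟩
  have hi : L0 ≤ 16 ^ i0 := by
    rw [hi0]
    exact (Nat.lt_pow_self (by norm_num)).le
  obtain ⟨c1, hc1⟩ : ∃ c1 : ℝ, c1 = min cb 1 := ⟨_, rfl⟩
  have hc1p : 0 < c1 := by rw [hc1]; exact lt_min hcb one_pos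
  have hc11 : c1 ≤ 1 := by rw [hc1]; exact min_le_right _ _
  have hc1b : c1 ≤ cb := by rw [hc1]; exact min_le_left _ _
  have hblk : ∀ L : ℕ, 16 ^ i0 ≤ L → c1 ≤ ∑ p ∈ (Ioc L (16 * L)).filter Nat.Prime, wt p :=
    fun L hL => hc1b.trans (hL0 L (hi.trans hL))
  obtain ⟨E, hE⟩ : ∃ E : ℝ, E = Real.exp (1 + c1 * (1 + i0)) := ⟨_, rfl⟩
  have hE0 : 0 < E := by rw [hE]; exact Real.exp_pos _
  obtain ⟨E2, hE2⟩ : ∃ E2 : ℝ, E2 = Real.exp (c1 * (i0 + 1)) := ⟨_, rfl⟩
  have hE20 : 0 < E2 := by rw [hE2]; exact Real.exp_pos _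
  refine ⟨c1 / 15, by positivity, 4 * E + 1 + 2 * E2, fun X hX => ?_⟩
  have hXR : (1 : ℝ) ≤ X := by exact_mod_cast hX
  obtain ⟨L, hL⟩ : ∃ L : ℝ, L = Real.log X := ⟨_, rfl⟩
  have hL0' : 0 ≤ L := by rw [hL]; exact Real.log_nonneg hXR
  have hLX : Real.exp L = X := by rw [hL, Real.exp_log (by linarith)]
  obtain ⟨s, hs⟩ : ∃ s : ℝ, s = Real.sqrt L := ⟨_, rfl⟩
  have hs0 : 0 ≤ s := by rw [hs]; exact Real.sqrt_nonneg _
  have hs2 : s ^ 2 = L := by rw [hs, Real.sq_sqrt hL0']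
  rw [← hL, ← hs]
  obtain ⟨I, hI⟩ : ∃ I : ℕ, I = ⌊s / 15⌋₊ := ⟨_, rfl⟩
  have hI1 : (I : ℝ) ≤ s / 15 := by rw [hI]; exact Nat.floor_le (by positivity)
  have hI2 : s / 15 < I + 1 := by rw [hI]; exact Nat.lt_floor_add_one _
  have hX0 : (0 : ℝ) ≤ X := by linarith
  have hes : 0 < Real.exp (-(c1 / 15 * s)) := Real.exp_pos _
  rcases le_or_gt I i0 with hcase | hcase
  · -- small X
    have h1 : (Nat.card {q : ℕ // q ≤ X ∧ ¬ P2 (Real.exp s) q} : ℝ) ≤ X + 1 := by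
      have h2 : {q : ℕ | q ≤ X ∧ ¬ P2 (Real.exp s) q} ⊆ ((range (X + 1) : Finset ℕ) : Set ℕ) := by
        rintro q ⟨hq1, hq2⟩
        rw [Finset.mem_coe, Finset.mem_range]
        omega
      have h3 := Set.ncard_le_ncard h2 (Finset.finite_toSet _)
      rw [Set.ncard_coe_finset, Finset.card_range] at h3
      have h4 : Nat.card {q : ℕ // q ≤ X ∧ ¬ P2 (Real.exp s) q} ≤ X + 1 := h3
      exact_mod_cast h4
    have h5 : (1 : ℝ) ≤ E2 * Real.exp (-(c1 / 15 * s)) := by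
      rw [hE2, ← Real.exp_add]
      apply Real.one_le_exp
      have h6 : (I : ℝ) ≤ i0 := by exact_mod_cast hcase
      have h7 : s / 15 ≤ i0 + 1 := by linarith
      have h8 := mul_le_mul_of_nonneg_left h7 hc1p.le
      linarith
    have h9 : (2 * X : ℝ) * 1 ≤ (2 * X) * (E2 * Real.exp (-(c1 / 15 * s))) :=
      mul_le_mul_of_nonneg_left h5 (by linarith)
    have h10 : 0 ≤ (4 * E + 1) * X * Real.exp (-(c1 / 15 * s)) := by positivity
    have h11 : (4 * E + 1 + 2 * E2) * X * Real.exp (-(c1 / 15 * s)) =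
      (4 * E + 1) * X * Real.exp (-(c1 / 15 * s)) + (2 * X) * (E2 * Real.exp (-(c1 / 15 * s))) := by
      ring
    rw [h11]
    linarith
  · -- the sieve
    obtain ⟨n, hn⟩ : ∃ n : ℕ, I = i0 + n := ⟨I - i0, by omega⟩
    have hI1' : 1 ≤ I := by omega
    have hI1R : (1 : ℝ) ≤ I := by exact_mod_cast hI1'
    have hnR : (I : ℝ) = i0 + n := by rw [hn]; push_cast; ring
    have hi0R : (0 : ℝ) ≤ i0 := Nat.cast_nonneg _
    have hn0R : (0 : ℝ) ≤ n := Nat.cast_nonneg _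
    have hfull := blocks c1 i0 hblk n
    rw [← hn] at hfull
    obtain ⟨Q, hQ, hQ1, hQ2⟩ := subset_sum _ wt (c1 * n) (by positivity) (fun p hp => by
      rw [Finset.mem_filter] at hp
      exact wt_bd p hp.2) hfull
    have hQmem : ∀ p ∈ Q, p.Prime ∧ p ≤ 16 ^ I := by
      intro p hp
      have := hQ hp
      rw [Finset.mem_filter, Finset.mem_Ioc] at this
      exact ⟨this.2, this.1.2⟩
    obtain ⟨σ, hσ⟩ : ∃ σ : ℝ, σ = ∑ p ∈ Q, wt p := ⟨_, rfl⟩
    rw [← hσ] at hQ1 hQ2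
    have hσ0 : 0 ≤ σ := by
      rw [hσ]
      exact Finset.sum_nonneg fun p hp => (wt_bd p (hQmem p hp).1).1
    obtain ⟨K, hK⟩ : ∃ K : ℕ, K = ⌈8 * σ + 8⌉₊ := ⟨_, rfl⟩
    have hK1 : 8 * σ + 8 ≤ K := by rw [hK]; exact Nat.le_ceil _
    have hK2 : (K : ℝ) ≤ 8 * σ + 9 := by
      have := Nat.ceil_lt_add_one (show 0 ≤ 8 * σ + 8 by positivity)
      rw [← hK] at this
      linarith
    have hσI : σ ≤ I := by
      have h1 : c1 * n ≤ 1 * n := mul_le_mul_of_nonneg_right hc11 hn0R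
      linarith
    have hK3 : (K : ℝ) ≤ 17 * I := by linarith
    have hz2 : 2 ≤ 16 ^ I := by
      calc 2 ≤ 16 ^ 1 := by norm_num
        _ ≤ 16 ^ I := Nat.pow_le_pow_right (by norm_num) hI1'
    have hsieve := sieve_gen X (16 ^ I) K (16 ^ I) Q Om (by omega) hz2 hQmem
      (fun p hp => by
        have h1 := hQmem p hp
        refine ⟨?_, Om_lt p h1.1.two_le⟩
        have h3 : Om p ⊆ range p := fun x hx => Finset.mem_range.2 (Om_lt p h1.1.two_le x hx)
        have h4 := Finset.card_le_card h3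
        rw [Finset.card_range] at h4
        exact h4.trans h1.2)
      (by
        have : ∑ p ∈ Q, ((Om p).card : ℝ) / p = σ := by rw [hσ]; rfl
        rw [this]
        exact hK1)
    have hsg : ∑ p ∈ Q, ((Om p).card : ℝ) / p = σ := by rw [hσ]; rfl
    rw [hsg] at hsieve
    have hl16 : Real.log 16 ≤ 3 := by
      have h1 : Real.log 16 = 4 * Real.log 2 := by
        rw [show (16 : ℝ) = 2 ^ 4 by norm_num, Real.log_pow]
        norm_num
      have h2 := Real.log_two_lt_d9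
      linarith
    have hl16' : 0 ≤ Real.log 16 := Real.log_nonneg (by norm_num)
    have hzexp : (16 : ℝ) ^ I = Real.exp (Real.log 16 * I) := by
      rw [Real.exp_mul, Real.exp_log (by norm_num), Real.rpow_natCast]
    have hzs : (16 : ℝ) ^ I ≤ Real.exp s := by
      rw [hzexp]
      refine Real.exp_le_exp.2 ?_
      have h1 := mul_le_mul_of_nonneg_right hl16 (show (0 : ℝ) ≤ I by linarith)
      linarith
    -- the count
    have hcount : (Nat.card {q : ℕ // q ≤ X ∧ ¬ P2 (Real.exp s) q} : ℝ) ≤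
        (((range (X + 1)).filter (fun u => ∀ p ∈ Q, u % p ∉ Om p)).card : ℝ) := by
      have h2 : {q : ℕ | q ≤ X ∧ ¬ P2 (Real.exp s) q} ⊆
          (((range (X + 1)).filter (fun u => ∀ p ∈ Q, u % p ∉ Om p) : Finset ℕ) : Set ℕ) := by
        rintro q ⟨hq1, hq2⟩
        rw [Finset.mem_coe, Finset.mem_filter, Finset.mem_range]
        refine ⟨by omega, fun p hp => ?_⟩
        have h1 := hQmem p hp
        refine not_mem h1.1.two_le ?_ hq2
        have h3 : (p : ℝ) ≤ (16 : ℝ) ^ I := by exact_mod_cast h1.2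
        exact h3.trans hzs
      have h3 := Set.ncard_le_ncard h2 (Finset.finite_toSet _)
      rw [Set.ncard_coe_finset] at h3
      have h4 : Nat.card {q : ℕ // q ≤ X ∧ ¬ P2 (Real.exp s) q} ≤
        ((range (X + 1)).filter (fun u => ∀ p ∈ Q, u % p ∉ Om p)).card := h3
      exact_mod_cast h4
    refine hcount.trans (hsieve.trans ?_)
    -- first term
    have t1 : Real.exp (-σ) ≤ E * Real.exp (-(c1 / 15 * s)) := by
      rw [hE, ← Real.exp_add]
      refine Real.exp_le_exp.2 ?_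
      have h1 : c1 * (s / 15) ≤ c1 * (I + 1) := mul_le_mul_of_nonneg_left hI2.le hc1p.le
      rw [hnR] at h1
      have h2 : c1 * (s / 15) = c1 / 15 * s := by ring
      have h3 : c1 * ((i0 : ℝ) + n + 1) = c1 * i0 + c1 * n + c1 := by ring
      have h4 : c1 * (1 + (i0 : ℝ)) = c1 + c1 * i0 := by ring
      rw [h2, h3] at h1
      rw [h4]
      linarith
    have t2 : 2 * ((X : ℝ) + 1) * Real.exp (-σ) ≤ 4 * E * X * Real.exp (-(c1 / 15 * s)) := by
      calc 2 * ((X : ℝ) + 1) * Real.exp (-σ) ≤ 4 * X * (E * Real.exp (-(c1 / 15 * s))) :=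
            mul_le_mul (by linarith) t1 (Real.exp_pos _).le (by linarith)
        _ = _ := by ring
    -- second term
    have t3 : (((16 ^ I : ℕ) : ℝ) * ((16 ^ I : ℕ) : ℝ)) ^ K ≤ Real.exp (L / 2) := by
      have h1 : (((16 ^ I : ℕ) : ℝ) * ((16 ^ I : ℕ) : ℝ)) ^ K =
          Real.exp ((2 * (Real.log 16 * I)) * K) := by
        push_cast
        rw [hzexp, ← Real.exp_add, Real.exp_mul, Real.rpow_natCast]
        congr 2
        ring
      rw [h1]
      refine Real.exp_le_exp.2 ?_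
      have h2 : Real.log 16 * I ≤ 3 * I := mul_le_mul_of_nonneg_right hl16 (by linarith)
      have h3 : (2 * (Real.log 16 * I)) * K ≤ (2 * (3 * I)) * (17 * I) :=
        mul_le_mul (by linarith) hK3 (Nat.cast_nonneg _) (by positivity)
      have h4 : (I : ℝ) ^ 2 ≤ (s / 15) ^ 2 := pow_le_pow_left₀ (by linarith) hI1 2
      have h5 : (s / 15) ^ 2 = L / 225 := by rw [div_pow, hs2]; norm_num
      rw [h5] at h4
      have h6 : (2 * (3 * (I : ℝ))) * (17 * I) = 102 * (I : ℝ) ^ 2 := by ring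
      rw [h6] at h3
      linarith
    have t4 : Real.exp (L / 2) ≤ X * Real.exp (-(c1 / 15 * s)) := by
      rw [← hLX, ← Real.exp_add]
      refine Real.exp_le_exp.2 ?_
      have h1 : (15 : ℝ) ≤ s := by linarith
      have h2 : c1 / 15 * s ≤ 1 * s := mul_le_mul_of_nonneg_right (by linarith) hs0
      have h3 : 2 * s ≤ L := by
        have h4 : s * 2 ≤ s * s := mul_le_mul_of_nonneg_left (by linarith) hs0
        rw [← hs2, sq]
        linarith
      linarith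
    have t5 : (4 * E + 1 + 2 * E2) * X * Real.exp (-(c1 / 15 * s)) =
        4 * E * X * Real.exp (-(c1 / 15 * s)) + X * Real.exp (-(c1 / 15 * s)) +
        2 * E2 * X * Real.exp (-(c1 / 15 * s)) := by ring
    have t6 : 0 ≤ 2 * E2 * X * Real.exp (-(c1 / 15 * s)) := by positivity
    rw [t5]
    linarith

end Pool.Agent.L7h22.FP
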