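import Pool.Agent.H307R2.OP.SV

set_option autoImplicit false

/-!
# Project FP (MP_ccd64a_nt): Brun's pure sieve for boundedly many residue classes
-/

namespace Pool.Agent.L7h22.FP

open Finset Pool.Agent.H307R2.OP Pool.Agent.H307R2.OP.SV

theorem sieve_gen (U z K k : ℕ) (P : Finset ℕ) (Ω : ℕ → Finset ℕ) (hk : 1 ≤ k) (hz : 2 ≤ z)
    (hP : ∀ p ∈ P, p.Prime ∧ p ≤ z)
    (hΩ : ∀ p ∈ P, (Ω p).card ≤ k ∧ ∀ x ∈ Ω p, x < p)
    (hK : 8 * (∑ p ∈ P, ((Ω p).card : ℝ) / p) + 8 ≤ K) :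
    (((range (U + 1)).filter (fun u => ∀ p ∈ P, u % p ∉ Ω p)).card : ℝ) ≤
      2 * ((U : ℝ) + 1) * Real.exp (-∑ p ∈ P, ((Ω p).card : ℝ) / p) + ((k : ℝ) * z) ^ K := by
  classical
  set x : ℕ → ℝ := fun p => ((Ω p).card : ℝ) / p with hx
  set σ := ∑ p ∈ P, x p with hσ
  have hx0 : ∀ p ∈ P, 0 ≤ x p := fun p _ => by positivity
  have hx1 : ∀ p ∈ P, 0 ≤ x p ∧ x p ≤ 1 := by
    intro p hp
    refine ⟨hx0 p hp, ?_⟩
    have h1 : (0 : ℝ) < p := by exact_mod_cast (hP p hp).1.pos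
    rw [hx]
    simp only
    rw [div_le_one h1]
    have h2 : (Ω p).card ≤ p := by
      have h3 : Ω p ⊆ range p := fun x hx => Finset.mem_range.2 ((hΩ p hp).2 x hx)
      simpa using Finset.card_le_card h3
    exact_mod_cast h2
  have hσ0 : 0 ≤ σ := Finset.sum_nonneg hx0
  have hK8 : 8 ≤ K := by
    have : (8 : ℝ) ≤ K := by linarith
    exact_mod_cast this
  obtain ⟨r, hr, hrK, hrK'⟩ : ∃ r : ℕ, Even r ∧ r + 1 ≤ K ∧ K ≤ r + 2 := by
    refine ⟨2 * ((K - 1) / 2), even_two_mul _, by omega, by omega⟩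
  have h1 := brun 1 0 U r P Ω le_rfl hr
    (fun p hp => ⟨(hP p hp).1, Nat.coprime_one_right p, (hΩ p hp).2⟩)
  have hfe : (range (U + 1)).filter (fun u => ∀ p ∈ P, u % p ∉ Ω p) =
      (range (U + 1)).filter (fun u => u % 1 = 0 % 1 ∧ ∀ p ∈ P, u % p ∉ Ω p) := by
    refine Finset.filter_congr fun u _ => ?_
    simp [Nat.mod_one]
  rw [hfe]
  have h2 := bonf x P hx1 (r + 1)
  have h3 : (-1 : ℝ) ^ (r + 1) = -1 := (Even.add_one hr).neg_one_pow
  rw [bn_succ, h3] at h2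
  have h4 := es_le x P hx0 (r + 1)
  have hKr : (K : ℝ) ≤ ((r + 2 : ℕ) : ℝ) := Nat.cast_le.2 hrK'
  have h5 : σ ^ (r + 1) / ((r + 1).factorial : ℝ) ≤ Real.exp (-σ) :=
    tail_le hσ0 (r + 1) (by push_cast at hKr ⊢; linarith)
  have h6 : ∏ p ∈ P, (1 - x p) ≤ Real.exp (-σ) := by
    rw [hσ, ← Finset.sum_neg_distrib, Real.exp_sum]
    refine Finset.prod_le_prod (fun p hp => by linarith [(hx1 p hp).2]) fun p _ => ?_
    have := Real.add_one_le_exp (-(x p))
    linarith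
  have h7 : bn x P r ≤ 2 * Real.exp (-σ) := by linarith
  have hPz : P.card ≤ z := by
    have : P ⊆ Finset.Ioc 0 z := fun p hp =>
      Finset.mem_Ioc.2 ⟨(hP p hp).1.pos, (hP p hp).2⟩
    simpa using Finset.card_le_card this
  have hkz : 2 ≤ k * z := by nlinarith
  have h8 : ∑ j ∈ range (r + 1), es (fun p => ((Ω p).card : ℝ)) P j ≤ ((k : ℝ) * z) ^ K := by
    have e1 : ∀ j, es (fun p => ((Ω p).card : ℝ)) P j ≤ (((k * z) ^ j : ℕ) : ℝ) := by
      intro j
      have e2 : es (fun p => ((Ω p).card : ℝ)) P j ≤ ∑ A ∈ powersetCard j P, (k : ℝ) ^ j := by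
        refine Finset.sum_le_sum fun A hA => ?_
        have hA' := Finset.mem_powersetCard.1 hA
        calc ∏ p ∈ A, ((Ω p).card : ℝ) ≤ ∏ _p ∈ A, (k : ℝ) :=
            Finset.prod_le_prod (fun _ _ => by positivity) fun p hp => by
              exact_mod_cast (hΩ p (hA'.1 hp)).1
          _ = (k : ℝ) ^ j := by rw [Finset.prod_const, hA'.2]
      rw [Finset.sum_const, Finset.card_powersetCard, nsmul_eq_mul] at e2
      refine e2.trans ?_
      have e3 : P.card.choose j ≤ z ^ j :=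
        (Nat.choose_le_pow _ _).trans (Nat.pow_le_pow_left hPz j)
      have e4 : P.card.choose j * k ^ j ≤ (k * z) ^ j := by
        rw [mul_pow, mul_comm]
        exact Nat.mul_le_mul_left _ e3
      exact_mod_cast e4
    have e5 : ∑ j ∈ range (r + 1), es (fun p => ((Ω p).card : ℝ)) P j ≤
        ((∑ j ∈ range (r + 1), (k * z) ^ j : ℕ) : ℝ) := by
      push_cast
      refine Finset.sum_le_sum fun j _ => ?_
      have := e1 j
      push_cast at this
      exact this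
    have e6 : ∑ j ∈ range (r + 1), (k * z) ^ j < (k * z) ^ (r + 1) :=
      Nat.geomSum_lt (by omega) (fun k hk => Finset.mem_range.1 hk)
    have e7 : (k * z) ^ (r + 1) ≤ (k * z) ^ K := Nat.pow_le_pow_right (by omega) hrK
    refine e5.trans ?_
    exact_mod_cast e6.le.trans e7
  have h10 : (0 : ℝ) ≤ (U : ℝ) + 1 := by positivity
  have h11 : ((U : ℝ) + 1) / ((1 : ℕ) : ℝ) * bn x P r ≤ 2 * ((U : ℝ) + 1) * Real.exp (-σ) := by
    rw [Nat.cast_one, div_one]
    have := mul_le_mul_of_nonneg_left h7 h10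
    linarith
  linarith

end Pool.Agent.L7h22.FP
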